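import Pool.Agent.Lib.helper27.Shearer

namespace Pool.Agent.H.MP_248d64_co

open Finset

variable {V : Type} [Fintype V] [DecidableEq V]

noncomputable def chi (x : Finset (Sym2 V)) : ℕ :=
  (SimpleGraph.fromEdgeSet (x : Set (Sym2 V))).chromaticNumber.toNat

omit [DecidableEq V] in
theorem chi_col (x : Finset (Sym2 V)) :
    (SimpleGraph.fromEdgeSet (x : Set (Sym2 V))).Colorable (chi x) :=
  SimpleGraph.colorable_chromaticNumber_of_fintype _

omit [DecidableEq V] in
theorem chi_le {α : Type} [Fintype α] (x : Finset (Sym2 V)) (c : V → α)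
    (h : ∀ u v, u ≠ v → s(u, v) ∈ x → c u ≠ c v) : chi x ≤ Fintype.card α := by
  have C : (SimpleGraph.fromEdgeSet (x : Set (Sym2 V))).Coloring α :=
    SimpleGraph.Coloring.mk c (by
      intro u v huv
      rw [SimpleGraph.fromEdgeSet_adj] at huv
      exact h u v huv.2 huv.1)
  have := C.colorable.chromaticNumber_le
  exact ENat.toNat_le_of_le_coe this

/-- edges of `E` with both ends of colour `i` -/
def part {r : ℕ} (E : Finset (Sym2 V)) (φ : V → Fin r) (i : Fin r) : Finset (Sym2 V) :=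
  E.filter (fun e => ∀ v ∈ e, φ v = i)

def mono {r : ℕ} (E : Finset (Sym2 V)) (φ : V → Fin r) : Finset (Sym2 V) :=
  univ.biUnion (part E φ)

theorem mem_mono {r : ℕ} (E : Finset (Sym2 V)) (φ : V → Fin r) (u v : V) :
    s(u, v) ∈ mono E φ ↔ s(u, v) ∈ E ∧ φ u = φ v := by
  simp only [mono, part, mem_biUnion, mem_univ, true_and, mem_filter, Sym2.mem_iff]
  constructor
  · rintro ⟨i, h1, h2⟩
    exact ⟨h1, (h2 u (Or.inl rfl)).trans (h2 v (Or.inr rfl)).symm⟩
  · rintro ⟨h1, h2⟩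
    refine ⟨φ u, h1, ?_⟩
    rintro w (rfl | rfl)
    · rfl
    · exact h2.symm

theorem mono_sub {r : ℕ} (E : Finset (Sym2 V)) (φ : V → Fin r) : mono E φ ⊆ E := by
  intro e he
  simp only [mono, part, mem_biUnion, mem_univ, true_and, mem_filter] at he
  obtain ⟨_, h, _⟩ := he
  exact h

theorem count_eq {r : ℕ} (u v : V) (huv : u ≠ v) :
    r * #(univ.filter (fun φ : V → Fin r => φ u = φ v)) = r ^ Fintype.card V := by
  have h1 : Fintype.card (Fin r × {φ : V → Fin r // φ u = φ v}) = Fintype.card (V → Fin r) := by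
    apply Fintype.card_congr
    refine ⟨fun p => Function.update p.2.1 u p.1,
      fun ψ => (ψ u, ⟨Function.update ψ u (ψ v), by simp [huv.symm]⟩), ?_, ?_⟩
    · rintro ⟨a, φ, h⟩
      simp only [Function.update_self, Prod.mk.injEq, Subtype.mk.injEq, true_and]
      rw [Function.update_idem, Function.update_of_ne huv.symm, ← h, Function.update_eq_self]
    · intro ψ
      simp
  rw [Fintype.card_prod, Fintype.card_fin, Fintype.card_fun, Fintype.card_fin,
    Fintype.card_subtype] at h1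
  exact h1

theorem cover {r : ℕ} (hr : 0 < r) (E : Finset (Sym2 V)) (hE : ∀ e ∈ E, ¬ e.IsDiag) :
    ∀ e ∈ E, ∑ φ : V → Fin r, (if e ∈ mono E φ then (r : ℝ) / r ^ Fintype.card V else 0) = 1 := by
  intro e he
  induction e using Sym2.ind with
  | _ u v =>
    have huv : u ≠ v := by simpa using hE _ he
    simp only [mem_mono, he, true_and]
    rw [← sum_filter, sum_const, nsmul_eq_mul]
    have := count_eq (r := r) u v huv
    have h2 : (r : ℝ) * #(univ.filter (fun φ : V → Fin r => φ u = φ v)) = r ^ Fintype.card V := by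
      exact_mod_cast this
    have : (0 : ℝ) < r := by exact_mod_cast hr
    field_simp
    linarith

theorem step {r : ℕ} (hr : 0 < r) (E : Finset (Sym2 V)) (hE : ∀ e ∈ E, ¬ e.IsDiag)
    (A B : Finset (Finset (Sym2 V))) (hA : ∀ x ∈ A, x ⊆ E) (hB : ∀ x ∈ B, x ⊆ E) (K : ℝ)
    (hK : 0 < K)
    (h : ∀ φ : V → Fin r, (#(A.image (· ∩ mono E φ)) : ℝ) * #(B.image (· ∩ mono E φ))
      ≤ K * 4 ^ #(mono E φ)) : (#A : ℝ) * #B ≤ K ^ r * 4 ^ #E := by
  have hr' : (0 : ℝ) < r := by exact_mod_cast hr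
  set w : ℝ := (r : ℝ) / r ^ Fintype.card V with hw
  have hw0 : 0 ≤ w := by positivity
  have c := cover hr E hE
  have h1 := Pool.Agent.Lib.helper27.shearer (fun φ : V → Fin r => mono E φ) w hw0 E c A hA
  have h2 := Pool.Agent.Lib.helper27.shearer (fun φ : V → Fin r => mono E φ) w hw0 E c B hB
  have h3 : ∑ φ : V → Fin r, (#(mono E φ) : ℝ) * w = #E := by
    have : ∑ e ∈ E, ∑ φ : V → Fin r, (if e ∈ mono E φ then w else 0) = ∑ e ∈ E, (1 : ℝ) :=
      sum_congr rfl c
    rw [sum_comm, sum_const, nsmul_eq_mul, mul_one] at this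
    rw [← this]
    refine sum_congr rfl fun φ _ => ?_
    rw [← sum_filter, sum_const, nsmul_eq_mul, filter_mem_eq_inter,
      inter_eq_right.2 (mono_sub E φ)]
  have h4 : ∑ _φ : V → Fin r, w = r := by
    rw [sum_const, card_univ, Fintype.card_fun, Fintype.card_fin, nsmul_eq_mul, hw]
    push_cast
    field_simp
  calc (#A : ℝ) * #B ≤ (∏ φ : V → Fin r, (#(A.image (· ∩ mono E φ)) : ℝ) ^ w) *
        ∏ φ : V → Fin r, (#(B.image (· ∩ mono E φ)) : ℝ) ^ w :=
        mul_le_mul h1 h2 (Nat.cast_nonneg _)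
          (prod_nonneg fun _ _ => Real.rpow_nonneg (Nat.cast_nonneg _) _)
    _ = ∏ φ : V → Fin r, ((#(A.image (· ∩ mono E φ)) : ℝ) * #(B.image (· ∩ mono E φ))) ^ w := by
        rw [← prod_mul_distrib]
        exact prod_congr rfl fun φ _ => (Real.mul_rpow (Nat.cast_nonneg _) (Nat.cast_nonneg _)).symm
    _ ≤ ∏ φ : V → Fin r, (K ^ w * (4 : ℝ) ^ ((#(mono E φ) : ℝ) * w)) := by
        apply prod_le_prod (fun _ _ => Real.rpow_nonneg
          (mul_nonneg (Nat.cast_nonneg _) (Nat.cast_nonneg _)) _)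
        intro φ _
        rw [Real.rpow_mul (by norm_num), Real.rpow_natCast,
          ← Real.mul_rpow hK.le (by positivity)]
        exact Real.rpow_le_rpow (mul_nonneg (Nat.cast_nonneg _) (Nat.cast_nonneg _)) (h φ) hw0
    _ = K ^ r * 4 ^ #E := by
        rw [prod_mul_distrib, ← Real.rpow_sum_of_pos hK, ← Real.rpow_sum_of_pos (by norm_num),
          h3, h4, Real.rpow_natCast, Real.rpow_natCast]

omit [Fintype V] in
theorem cross (S : Finset (Sym2 V)) (A B : Finset (Finset (Sym2 V))) (hA : ∀ x ∈ A, x ⊆ S)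
    (hB : ∀ x ∈ B, x ⊆ S) (h : ∀ x ∈ A, ∀ y ∈ B, (x ∩ y).Nonempty) :
    (#A : ℝ) * #B ≤ 1 / 4 * 4 ^ #S := by
  have h1 : #(A ∪ B.image (S \ ·)) = #A + #B := by
    rw [card_union_of_disjoint, card_image_of_injOn]
    · intro x hx y hy e
      rw [← Finset.sdiff_sdiff_eq_self (hB x hx), ← Finset.sdiff_sdiff_eq_self (hB y hy)]
      exact congrArg _ e
    · refine disjoint_left.2 fun x hx hy => ?_
      obtain ⟨y, hy', rfl⟩ := mem_image.1 hy
      simpa using h _ hx _ hy'
  have h2 : A ∪ B.image (S \ ·) ⊆ S.powerset :=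
    union_subset (fun x hx => mem_powerset.2 (hA x hx))
      (image_subset_iff.2 fun x _ => mem_powerset.2 sdiff_subset)
  have h3 := card_le_card h2
  rw [h1, card_powerset] at h3
  have h4 : (#A : ℝ) + #B ≤ 2 ^ #S := by exact_mod_cast h3
  have h5 : (4 : ℝ) ^ #S = 2 ^ #S * 2 ^ #S := by rw [← mul_pow]; norm_num
  have h6 : ((#A : ℝ) + #B) * (#A + #B) ≤ 2 ^ #S * 2 ^ #S :=
    mul_le_mul h4 h4 (by positivity) (by positivity)
  nlinarith [sq_nonneg ((#A : ℝ) - #B)]

theorem base (r : ℕ) (E : Finset (Sym2 V)) (hE : ∀ e ∈ E, ¬ e.IsDiag)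
    (A B : Finset (Finset (Sym2 V))) (hA : ∀ x ∈ A, x ⊆ E) (hB : ∀ x ∈ B, x ⊆ E)
    (h : ∀ x ∈ A, ∀ y ∈ B, r < chi (x ∩ y)) : (#A : ℝ) * #B ≤ (1 / 4) ^ r * 4 ^ #E := by
  rcases Nat.eq_zero_or_pos r with rfl | hr
  · have h1 : #A ≤ 2 ^ #E := by
      rw [← card_powerset]; exact card_le_card fun x hx => mem_powerset.2 (hA x hx)
    have h2 : #B ≤ 2 ^ #E := by
      rw [← card_powerset]; exact card_le_card fun x hx => mem_powerset.2 (hB x hx)
    have h5 : (4 : ℝ) ^ #E = 2 ^ #E * 2 ^ #E := by rw [← mul_pow]; norm_num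
    rw [pow_zero, one_mul, h5]
    exact mul_le_mul (by exact_mod_cast h1) (by exact_mod_cast h2) (by positivity) (by positivity)
  apply step hr E hE A B hA hB _ (by norm_num)
  intro φ
  apply cross
  · intro x hx
    obtain ⟨y, _, rfl⟩ := mem_image.1 hx
    exact inter_subset_right
  · intro x hx
    obtain ⟨y, _, rfl⟩ := mem_image.1 hx
    exact inter_subset_right
  · intro x' hx' y' hy'
    obtain ⟨x, hx, rfl⟩ := mem_image.1 hx'
    obtain ⟨y, hy, rfl⟩ := mem_image.1 hy'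
    by_contra hc
    rw [not_nonempty_iff_eq_empty] at hc
    have := chi_le (x ∩ y) φ (by
      intro u v _ h1 h2
      have h3 : s(u, v) ∈ mono E φ := (mem_mono E φ u v).2 ⟨hA x hx (mem_inter.1 h1).1, h2⟩
      have : s(u, v) ∈ x ∩ mono E φ ∩ (y ∩ mono E φ) := by
        simp only [mem_inter] at h1 ⊢
        exact ⟨⟨h1.1, h3⟩, h1.2, h3⟩
      rw [hc] at this
      simp at this)
    rw [Fintype.card_fin] at this
    have := h x hx y hy
    omega

theorem rank_sum {α : Type} [DecidableEq α] (F : α → ℝ) (X : Finset α) :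
    ∑ x ∈ X, 1 / √(#(X.filter (fun z => F x ≤ F z)) : ℝ) ≤ 2 * √(#X : ℝ) := by
  induction X using Finset.induction_on_min_value F with
  | empty => simp
  | insert a s ha hmin ih =>
    rw [sum_insert ha, card_insert_of_notMem ha]
    have h1 : (insert a s).filter (fun z => F a ≤ F z) = insert a s := by
      apply filter_true_of_mem
      intro z hz
      rcases mem_insert.1 hz with rfl | hz
      · exact le_rfl
      · exact hmin z hz
    have h2 : ∑ x ∈ s, 1 / √(#((insert a s).filter (fun z => F x ≤ F z)) : ℝ) ≤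
        ∑ x ∈ s, 1 / √(#(s.filter (fun z => F x ≤ F z)) : ℝ) := by
      apply sum_le_sum
      intro x hx
      apply one_div_le_one_div_of_le
      · apply Real.sqrt_pos.2
        have : 0 < #(s.filter (fun z => F x ≤ F z)) := card_pos.2 ⟨x, mem_filter.2 ⟨hx, le_rfl⟩⟩
        exact_mod_cast this
      · apply Real.sqrt_le_sqrt
        exact_mod_cast card_le_card (filter_subset_filter _ (subset_insert a s))
    rw [h1, card_insert_of_notMem ha]
    push_cast
    have h3 : 1 / √((#s : ℝ) + 1) ≤ 2 * √((#s : ℝ) + 1) - 2 * √(#s : ℝ) := by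
      have p1 : 0 < √((#s : ℝ) + 1) := Real.sqrt_pos.2 (by positivity)
      have p2 := Real.sq_sqrt (show (0 : ℝ) ≤ #s + 1 by positivity)
      have p3 := Real.sq_sqrt (show (0 : ℝ) ≤ #s by positivity)
      rw [div_le_iff₀ p1]
      nlinarith [sq_nonneg (√((#s : ℝ) + 1) - √(#s : ℝ))]
    linarith

theorem func (E : Finset (Sym2 V)) (hE : ∀ e ∈ E, ¬ e.IsDiag) (F G : Finset (Sym2 V) → ℝ)
    (h : ∀ x ⊆ E, ∀ y ⊆ E, F x * G y ≤ 2 ^ chi (x ∩ y))
    (hF : ∀ x, 0 ≤ F x) (hG : ∀ x, 0 ≤ G x) :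
    (∑ x ∈ E.powerset, F x) * ∑ y ∈ E.powerset, G y ≤ 8 * 4 ^ #E := by
  set N : ℝ := 2 ^ #E with hN
  have hN4 : (4 : ℝ) ^ #E = N * N := by rw [hN, ← mul_pow]; norm_num
  have hN0 : 0 < N := by positivity
  have key : ∀ x ∈ E.powerset, ∀ y ∈ E.powerset, F x * G y ≤ 2 * N *
      ((1 / √(#(E.powerset.filter (fun z => F x ≤ F z)) : ℝ)) *
        (1 / √(#(E.powerset.filter (fun z => G y ≤ G z)) : ℝ))) := by
    intro x hx y hy
    set A := E.powerset.filter (fun z => F x ≤ F z)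
    set B := E.powerset.filter (fun z => G y ≤ G z)
    have a0 : (0 : ℝ) < #A := Nat.cast_pos.2 (card_pos.2 ⟨x, mem_filter.2 ⟨hx, le_rfl⟩⟩)
    have b0 : (0 : ℝ) < #B := Nat.cast_pos.2 (card_pos.2 ⟨y, mem_filter.2 ⟨hy, le_rfl⟩⟩)
    have hA : ∀ z ∈ A, z ⊆ E := fun z hz => mem_powerset.1 (mem_filter.1 hz).1
    have hB : ∀ z ∈ B, z ⊆ E := fun z hz => mem_powerset.1 (mem_filter.1 hz).1
    have hp : 0 ≤ F x * G y := mul_nonneg (hF x) (hG y)
    obtain ⟨r, hr1, hr2⟩ : ∃ r : ℕ, F x * G y ≤ 2 ^ (r + 1) ∧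
        ∀ a ∈ A, ∀ b ∈ B, r < chi (a ∩ b) ∨ r = 0 := by
      have hex : ∃ r : ℕ, F x * G y ≤ 2 ^ (r + 1) := by
        obtain ⟨m, hm⟩ := pow_unbounded_of_one_lt (F x * G y) (show (1 : ℝ) < 2 by norm_num)
        exact ⟨m, hm.le.trans (pow_le_pow_right₀ (by norm_num) (by omega))⟩
      refine ⟨Nat.find hex, Nat.find_spec hex, fun a ha b hb => ?_⟩
      rcases Nat.eq_zero_or_pos (Nat.find hex) with h0 | h0
      · exact Or.inr h0
      · left
        have h1 := Nat.find_min hex (show Nat.find hex - 1 < Nat.find hex by omega)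
        rw [Nat.sub_add_cancel h0, not_le] at h1
        have h2 : F x * G y ≤ F a * G b :=
          mul_le_mul (mem_filter.1 ha).2 (mem_filter.1 hb).2 (hG y) (hF a)
        have h3 := h a (hA a ha) b (hB b hb)
        exact (pow_lt_pow_iff_right₀ (show (1 : ℝ) < 2 by norm_num)).1 (by linarith)
    have h4 : (#A : ℝ) * #B ≤ (1 / 4) ^ r * 4 ^ #E := by
      rcases Nat.eq_zero_or_pos r with rfl | h0
      · have h1 : #A ≤ 2 ^ #E := by rw [← card_powerset]; exact card_filter_le _ _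
        have h2 : #B ≤ 2 ^ #E := by rw [← card_powerset]; exact card_filter_le _ _
        rw [pow_zero, one_mul, hN4, hN]
        exact mul_le_mul (by exact_mod_cast h1) (by exact_mod_cast h2) b0.le (by positivity)
      · exact base r E hE A B hA hB (fun a ha b hb => (hr2 a ha b hb).resolve_right (by omega))
    have h5 : √(#A : ℝ) * √(#B : ℝ) ≤ (1 / 2) ^ r * N := by
      rw [← Real.sqrt_mul a0.le]
      apply Real.sqrt_le_iff.2
      refine ⟨by positivity, h4.trans (le_of_eq ?_)⟩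
      rw [hN4, mul_pow, ← pow_mul, mul_comm r 2, pow_mul]
      norm_num
      ring
    have sa := Real.sqrt_pos.2 a0
    have sb := Real.sqrt_pos.2 b0
    rw [div_mul_div_comm, one_mul, mul_one_div, le_div_iff₀ (by positivity)]
    calc F x * G y * (√(#A : ℝ) * √(#B : ℝ)) ≤ 2 ^ (r + 1) * ((1 / 2) ^ r * N) :=
          mul_le_mul hr1 h5 (by positivity) (by positivity)
      _ = 2 * N := by rw [one_div, inv_pow, pow_succ]; field_simp
  have r1 := rank_sum F E.powerset
  have r2 := rank_sum G E.powerset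
  rw [card_powerset] at r1 r2
  push_cast at r1 r2
  rw [← hN] at r1 r2
  rw [sum_mul_sum]
  calc ∑ x ∈ E.powerset, ∑ y ∈ E.powerset, F x * G y
      ≤ ∑ x ∈ E.powerset, ∑ y ∈ E.powerset, 2 * N *
        ((1 / √(#(E.powerset.filter (fun z => F x ≤ F z)) : ℝ)) *
          (1 / √(#(E.powerset.filter (fun z => G y ≤ G z)) : ℝ))) :=
        sum_le_sum fun x hx => sum_le_sum fun y hy => key x hx y hy
    _ = 2 * N * ((∑ x ∈ E.powerset, 1 / √(#(E.powerset.filter (fun z => F x ≤ F z)) : ℝ)) *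
        ∑ y ∈ E.powerset, 1 / √(#(E.powerset.filter (fun z => G y ≤ G z)) : ℝ)) := by
        rw [sum_mul_sum, mul_sum]
        exact sum_congr rfl fun x _ => by rw [mul_sum]
    _ ≤ 2 * N * ((2 * √N) * (2 * √N)) := by
        apply mul_le_mul_of_nonneg_left _ (by positivity)
        exact mul_le_mul r1 r2 (sum_nonneg fun _ _ => one_div_nonneg.2 (Real.sqrt_nonneg _))
          (by positivity)
    _ = 8 * 4 ^ #E := by
        have := Real.mul_self_sqrt hN0.le
        rw [hN4]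
        nlinarith

end Pool.Agent.H.MP_248d64_co
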