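import Pool.Agent.H.MP_248d64_co.A

namespace Pool.Agent.H.MP_248d64_co

open Finset

variable {V : Type} [Fintype V] [DecidableEq V]

theorem sum_pow_union {α : Type} [DecidableEq α] (S T : Finset α) (h : Disjoint S T)
    (F : Finset α → ℝ) :
    ∑ x ∈ (S ∪ T).powerset, F x = ∑ a ∈ T.powerset, ∑ b ∈ S.powerset, F (b ∪ a) := by
  rw [← sum_product']
  have hd := disjoint_left.1 h
  refine sum_nbij' (fun x => (x ∩ T, x ∩ S)) (fun p => p.2 ∪ p.1) ?_ ?_ ?_ ?_ ?_
  · intro x _
    simp
  · intro p hp
    simp only [mem_product, mem_powerset] at hp ⊢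
    exact union_subset_union hp.2 hp.1
  · intro x hx
    simp only [mem_powerset] at hx
    simp only
    rw [← inter_union_distrib_left, inter_eq_left.2 hx]
  · intro p hp
    simp only [mem_product, mem_powerset] at hp
    ext e
    · simp only [mem_inter, mem_union]
      have := @hp.1 e
      have := @hp.2 e
      have := @hd e
      tauto
    · simp only [mem_inter, mem_union]
      have := @hp.1 e
      have := @hp.2 e
      have := @hd e
      tauto
  · intro x hx
    simp only [mem_powerset] at hx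
    simp only
    rw [← inter_union_distrib_left, inter_eq_left.2 hx]

theorem tensor {ι : Type} [DecidableEq ι] (E : ι → Finset (Sym2 V))
    (hE : ∀ i, ∀ e ∈ E i, ¬ e.IsDiag) (hd : ∀ i j, i ≠ j → Disjoint (E i) (E j)) (I : Finset ι) :
    ∀ F G : Finset (Sym2 V) → ℝ, (∀ x, 0 ≤ F x) → (∀ x, 0 ≤ G x) →
    (∀ x ⊆ I.biUnion E, ∀ y ⊆ I.biUnion E, F x * G y ≤ 2 ^ ∑ i ∈ I, chi (x ∩ y ∩ E i)) →
    (∑ x ∈ (I.biUnion E).powerset, F x) * ∑ y ∈ (I.biUnion E).powerset, G y
      ≤ 8 ^ #I * 4 ^ #(I.biUnion E) := by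
  induction I using Finset.induction_on with
  | empty =>
    intro F G _ _ h
    simpa using h ∅ (by simp) ∅ (by simp)
  | insert j I hj ih =>
    intro F G hF hG h
    have hdis : Disjoint (E j) (I.biUnion E) :=
      (disjoint_biUnion_right _ _ _).2 fun i hi => hd j i (fun e => hj (e ▸ hi))
    have hd' := disjoint_left.1 hdis
    rw [biUnion_insert] at h ⊢
    rw [sum_pow_union _ _ hdis, sum_pow_union _ _ hdis, card_insert_of_notMem hj,
      card_union_of_disjoint hdis]
    have hc : (0 : ℝ) < 8 * 4 ^ #(E j) := by positivity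
    have key := ih (fun a => (∑ b ∈ (E j).powerset, F (b ∪ a)) / (8 * 4 ^ #(E j)))
      (fun a => ∑ b ∈ (E j).powerset, G (b ∪ a))
      (fun a => div_nonneg (sum_nonneg fun _ _ => hF _) hc.le)
      (fun a => sum_nonneg fun _ _ => hG _) (by
        intro x hx y hy
        have hp : (0 : ℝ) < 2 ^ ∑ i ∈ I, chi (x ∩ y ∩ E i) := by positivity
        have := func (E j) (hE j) (fun b => F (b ∪ x) / 2 ^ ∑ i ∈ I, chi (x ∩ y ∩ E i))
          (fun b => G (b ∪ y)) (by
            intro a ha b hb
            have h1 := h (a ∪ x) (union_subset_union ha hx) (b ∪ y) (union_subset_union hb hy)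
            rw [sum_insert hj] at h1
            have e1 : (a ∪ x) ∩ (b ∪ y) ∩ E j = a ∩ b := by
              ext e
              simp only [mem_inter, mem_union]
              have := @ha e
              have := @hb e
              have := @hx e
              have := @hy e
              have := @hd' e
              tauto
            have e2 : ∑ i ∈ I, chi ((a ∪ x) ∩ (b ∪ y) ∩ E i) = ∑ i ∈ I, chi (x ∩ y ∩ E i) := by
              refine sum_congr rfl fun i hi => ?_
              congr 1
              ext e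
              simp only [mem_inter, mem_union]
              have := @ha e
              have := @hb e
              have := @disjoint_left.1 (hd j i (fun e => hj (e ▸ hi))) e
              tauto
            rw [e1, e2, pow_add] at h1
            rw [div_mul_eq_mul_div, div_le_iff₀ hp]
            exact h1)
          (fun b => div_nonneg (hF _) hp.le) (fun b => hG _)
        rw [← sum_div, div_mul_eq_mul_div, div_le_iff₀ hp] at this
        rw [div_mul_eq_mul_div, div_le_iff₀ hc, mul_comm (2 ^ _ : ℝ)]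
        exact this)
    rw [← sum_div, div_mul_eq_mul_div, div_le_iff₀ hc] at key
    refine key.trans (le_of_eq ?_)
    ring

theorem chi_split {r : ℕ} (E : Finset (Sym2 V)) (φ : V → Fin r) (z : Finset (Sym2 V))
    (hz : z ⊆ E) : chi z ≤ ∑ i, chi (z ∩ part E φ i) := by
  have C := fun i => (chi_col (z ∩ part E φ i)).some
  have := chi_le (α := Σ i : Fin r, Fin (chi (z ∩ part E φ i))) z
    (fun v => ⟨φ v, C (φ v) v⟩) (by
      intro u v huv h1 h2
      have h3 : φ u = φ v := congrArg Sigma.fst h2
      have h4 : (SimpleGraph.fromEdgeSet ((z ∩ part E φ (φ v) : Finset _) : Set (Sym2 V))).Adj u v := by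
        rw [SimpleGraph.fromEdgeSet_adj]
        refine ⟨?_, huv⟩
        simp only [part, coe_inter, coe_filter, Set.mem_inter_iff, mem_coe, Set.mem_setOf_eq,
          Sym2.mem_iff]
        refine ⟨h1, hz h1, ?_⟩
        rintro w (rfl | rfl)
        · exact h3
        · rfl
      have h5 := (C (φ v)).valid h4
      rw [h3] at h2
      exact h5 (eq_of_heq (Sigma.mk.inj h2).2))
  simpa using this

theorem main_aux (t r : ℕ) (hr : 0 < r) (E : Finset (Sym2 V)) (hE : ∀ e ∈ E, ¬ e.IsDiag)
    (A : Finset (Finset (Sym2 V))) (hA : ∀ x ∈ A, x ⊆ E)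
    (h : ∀ x ∈ A, ∀ y ∈ A, t ≤ chi (x ∩ y)) :
    (#A : ℝ) * #A ≤ (8 ^ r / 2 ^ t) ^ r * 4 ^ #E := by
  apply step hr E hE A A hA hA _ (by positivity)
  intro φ
  set S := mono E φ with hS
  set A' := A.image (· ∩ S)
  have hA' : A' ⊆ S.powerset := by
    intro x hx
    obtain ⟨y, _, rfl⟩ := mem_image.1 hx
    exact mem_powerset.2 inter_subset_right
  have key := tensor (part E φ) (fun i e he => hE e (mem_filter.1 he).1) (by
      intro i j hij
      rw [disjoint_left]
      intro e h1 h2
      induction e using Sym2.ind with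
      | _ u v =>
        exact hij (((mem_filter.1 h1).2 u (by simp)).symm.trans ((mem_filter.1 h2).2 u (by simp))))
    univ (fun x => if x ∈ A' then 1 else 0) (fun x => if x ∈ A' then 2 ^ t else 0)
    (fun x => by split_ifs <;> norm_num) (fun x => by split_ifs <;> positivity) (by
      intro x' _ y' _
      split_ifs with hx' hy'
      · obtain ⟨x, hx, rfl⟩ := mem_image.1 hx'
        obtain ⟨y, hy, rfl⟩ := mem_image.1 hy'
        rw [one_mul]
        apply pow_le_pow_right₀ (by norm_num)
        refine (h x hx y hy).trans ((chi_split E φ _ (inter_subset_left.trans (hA x hx))).trans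
          (le_of_eq (sum_congr rfl fun i _ => ?_)))
        congr 1
        ext e
        have : e ∈ part E φ i → e ∈ S := fun he => mem_biUnion.2 ⟨i, mem_univ _, he⟩
        simp only [mem_inter]
        tauto
      all_goals simp)
  have e0 : univ.biUnion (part E φ) = S := rfl
  rw [e0, ← sum_filter, ← sum_filter, filter_mem_eq_inter, inter_eq_right.2 hA', sum_const,
    sum_const, card_univ, Fintype.card_fin, nsmul_eq_mul, nsmul_eq_mul] at key
  rw [div_mul_eq_mul_div, le_div_iff₀ (by positivity)]
  linarith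

theorem main (t : ℕ) (ht : 3 ≤ t) (n : ℕ) (F : Finset (SimpleGraph (Fin n)))
    (h : ∀ G ∈ F, ∀ H ∈ F, (t : ℕ∞) ≤ (G ⊓ H).chromaticNumber) :
    (F.card : ℝ) ≤ (2 : ℝ) ^ ((n.choose 2 : ℝ) - 1 / 48 * (t : ℝ) ^ 2) := by
  classical
  set E := (⊤ : SimpleGraph (Fin n)).edgeFinset with hE'
  have hE : ∀ e ∈ E, ¬ e.IsDiag := fun e he =>
    SimpleGraph.not_isDiag_of_mem_edgeSet _ (SimpleGraph.mem_edgeFinset.1 he)
  have hc : #E = n.choose 2 := by
    rw [hE', SimpleGraph.card_edgeFinset_top_eq_card_choose_two, Fintype.card_fin]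
  set A := F.image (fun G => G.edgeSet.toFinset) with hA'
  have hcard : #A = #F := card_image_of_injective _ (fun G H e => by
    simpa using e)
  have hA : ∀ x ∈ A, x ⊆ E := by
    intro x hx
    obtain ⟨G, _, rfl⟩ := mem_image.1 hx
    intro e he
    rw [Set.mem_toFinset] at he
    exact SimpleGraph.mem_edgeFinset.2 (SimpleGraph.edgeSet_mono le_top he)
  have hchi : ∀ x ∈ A, ∀ y ∈ A, t ≤ chi (x ∩ y) := by
    intro x hx y hy
    obtain ⟨G, hG, rfl⟩ := mem_image.1 hx
    obtain ⟨H, hH, rfl⟩ := mem_image.1 hy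
    have h1 := chi_col (G.edgeSet.toFinset ∩ H.edgeSet.toFinset)
    have h2 : SimpleGraph.fromEdgeSet ((G.edgeSet.toFinset ∩ H.edgeSet.toFinset : Finset _) :
        Set (Sym2 (Fin n))) = G ⊓ H := by
      rw [coe_inter, Set.coe_toFinset, Set.coe_toFinset, ← SimpleGraph.edgeSet_inf,
        SimpleGraph.fromEdgeSet_edgeSet]
    rw [h2] at h1
    exact_mod_cast (h G hG H hH).trans h1.chromaticNumber_le
  have fin : ∀ s : ℝ, 1 / 24 * (t : ℝ) ^ 2 ≤ s → (#A : ℝ) * #A ≤ 2 ^ (-s) * 4 ^ #E →
      (F.card : ℝ) ≤ (2 : ℝ) ^ ((n.choose 2 : ℝ) - 1 / 48 * (t : ℝ) ^ 2) := by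
    intro s hs h1
    rw [hcard, hc] at h1
    apply le_of_sq_le_sq _ (by positivity)
    rw [sq, sq, ← Real.rpow_add (by norm_num)]
    refine h1.trans ?_
    rw [show (4 : ℝ) = 2 ^ (2 : ℝ) by norm_num, ← Real.rpow_natCast, ← Real.rpow_mul (by norm_num),
      ← Real.rpow_add (by norm_num)]
    apply Real.rpow_le_rpow_of_exponent_le (by norm_num)
    linarith
  rcases Nat.lt_or_ge t 6 with h6 | h6
  · apply fin 4
    · have : (t : ℝ) ≤ 6 := by exact_mod_cast h6.le
      have : (0 : ℝ) ≤ t := by positivity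
      nlinarith
    · have := base 2 E hE A A hA hA (fun x hx y hy => by have := hchi x hx y hy; omega)
      refine this.trans (le_of_eq ?_)
      rw [Real.rpow_neg (by norm_num)]
      norm_num
  · have h1 := main_aux t (t / 6) (by omega) E hE A hA hchi
    have a1 : ((6 * (t / 6) : ℕ) : ℝ) ≤ t := by exact_mod_cast (by omega : 6 * (t / 6) ≤ t)
    have a2 : (t : ℝ) ≤ ((12 * (t / 6) : ℕ) : ℝ) := by exact_mod_cast (by omega : t ≤ 12 * (t / 6))
    generalize t / 6 = r at h1 a1 a2
    push_cast at a1 a2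
    apply fin (((t : ℝ) - 3 * r) * r)
    · have : (0 : ℝ) ≤ t := by positivity
      have : (0 : ℝ) ≤ r := by positivity
      nlinarith
    · refine h1.trans (le_of_eq ?_)
      congr 1
      rw [show (8 : ℝ) = 2 ^ (3 : ℝ) by norm_num, ← Real.rpow_natCast, ← Real.rpow_natCast,
        ← Real.rpow_natCast, ← Real.rpow_mul (by norm_num), ← Real.rpow_sub (by norm_num),
        ← Real.rpow_mul (by norm_num)]
      congr 1
      ring

end Pool.Agent.H.MP_248d64_co
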